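import Mathlib.Data.Int.ModEq
import Mathlib.Algebra.BigOperators.Group.Finset.Basic
import Mathlib.RingTheory.Coprime.Basic
import Mathlib.Data.Real.Basic

/-! Programs which write the digits of a natural number from the lowest place upwards: each
instruction predicts a block of digits from all the digits which are already known. -/

set_option autoImplicit false

namespace Pool.Agent.H723.PW

/-- The digits of `x` in base `q` at the places `j ≤ t < k` are predicted from the lower ones: modulo
`q ^ (k - j)`, an integral multiple of `⌊x / q ^ j⌋`, prime to `q`, is a sum of a constant and of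
integral multiples of the tails `⌊x / q ^ i⌋`, `i < j`, all coefficients being at most
`q ^ (j + 1)`. -/
def Predicted (q x j k : ℕ) : Prop :=
  ∃ (e m : ℤ) (c : ℕ → ℤ), IsCoprime e (q : ℤ) ∧ |e| ≤ (q : ℤ) ^ (j + 1) ∧
    |m| ≤ (q : ℤ) ^ (j + 1) ∧ (∀ i, |c i| ≤ (q : ℤ) ^ (j + 1)) ∧
    (q : ℤ) ^ (k - j) ∣ e * ((x / q ^ j : ℕ) : ℤ) - m -
      ∑ i ∈ Finset.range j, c i * ((x / q ^ i : ℕ) : ℤ)

/-- The `N` lowest digits of `x` in base `q` are written by `z` instructions. -/
inductive Writes (q x : ℕ) : ℕ → ℕ → Prop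
  | nil : Writes q x 0 0
  | step {j k z : ℕ} : Writes q x j z → j ≤ k → Predicted q x j k → Writes q x k (z + 1)

/-- The digit of `x` in base `q` at the place `t`, counted from the lowest one. -/
def digit (q x t : ℕ) : ℕ := x / q ^ t % q

/-- At the places `j ≤ t < k` the letters satisfy a linear recurrence of order `j`,
`e v(t) = m + ∑ c(i) v(t - j + i)`, `i < j`, with integral coefficients of absolute value at most
`q ^ j`, and `e` prime to `q`. -/
def IsBlock (q : ℕ) (v : ℕ → ℕ) (j k : ℕ) : Prop :=
  ∃ (e m : ℤ) (c : ℕ → ℤ), IsCoprime e (q : ℤ) ∧ |e| ≤ (q : ℤ) ^ j ∧ |m| ≤ (q : ℤ) ^ j ∧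
    (∀ i, |c i| ≤ (q : ℤ) ^ j) ∧
    ∀ t, j ≤ t → t < k → e * (v t : ℤ) = m + ∑ i ∈ Finset.range j, c i * (v (t - j + i) : ℤ)

/-- The first `N` letters of `v` are written from left to right by `z` instructions; an instruction
writes one arbitrary letter or a block of any length by one linear recurrence. -/
inductive Program (q : ℕ) (v : ℕ → ℕ) : ℕ → ℕ → Prop
  | nil : Program q v 0 0
  | letter {N z : ℕ} : Program q v N z → Program q v (N + 1) (z + 1)
  | block {j k z : ℕ} : Program q v j z → j ≤ k → IsBlock q v j k → Program q v k (z + 1)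

/-- The first `N` letters of `v` are cut into `z` phrases; a phrase is one arbitrary letter or a copy
of a block of letters (of any length) which begins earlier, at a distance `d`; the two blocks may
overlap (Lempel and Ziv 1977). -/
inductive LZ77 (v : ℕ → ℕ) : ℕ → ℕ → Prop
  | nil : LZ77 v 0 0
  | letter {N z : ℕ} : LZ77 v N z → LZ77 v (N + 1) (z + 1)
  | copy {N M z : ℕ} (d : ℕ) : LZ77 v N z → N ≤ M → 0 < d → d ≤ N →
      (∀ t, N ≤ t → t < M → v t = v (t - d)) → LZ77 v M (z + 1)

end Pool.Agent.H723.PW
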