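import Mathlib
import Pool.Agent.H723.PW.Defs
import Pool.Agent.H723.PW.TwoLogs

/-! One instruction: the length of a predicted block of digits of `a ^ n`. -/

set_option autoImplicit false

namespace Pool.Agent.H723.PW

open Finset

/-- A predicted block gives a linear congruence for the number. -/
theorem Predicted.relation {q x j k : ℕ} (hq : 2 ≤ q) (hjk : j ≤ k) (h : Predicted q x j k) :
    ∃ D C : ℤ, IsCoprime D (q : ℤ) ∧ |D| ≤ 3 * (q : ℤ) ^ (2 * j + 1) ∧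
      |C| ≤ (j + 2) * (q : ℤ) ^ (2 * j + 1) ∧ (q : ℤ) ^ k ∣ D * x - C := by
  obtain ⟨e, m, c, he, heb, hmb, hcb, hdvd⟩ := h
  have hq0 : (0 : ℤ) < q := by positivity
  have hq2 : (2 : ℤ) ≤ q := by exact_mod_cast hq
  have hdiv : ∀ i : ℕ, (x : ℤ) = (q : ℤ) ^ i * ((x / q ^ i : ℕ) : ℤ) + ((x % q ^ i : ℕ) : ℤ) := by
    intro i
    exact_mod_cast (Nat.div_add_mod x (q ^ i)).symm
  have hr0 : ∀ i : ℕ, (0 : ℤ) ≤ ((x % q ^ i : ℕ) : ℤ) := fun i => by positivity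
  have hr1 : ∀ i : ℕ, ((x % q ^ i : ℕ) : ℤ) ≤ (q : ℤ) ^ i := fun i => by
    exact_mod_cast (Nat.mod_lt x (by positivity : 0 < q ^ i)).le
  refine ⟨e - ∑ i ∈ range j, c i * (q : ℤ) ^ (j - i),
    m * (q : ℤ) ^ j + e * ((x % q ^ j : ℕ) : ℤ) -
      ∑ i ∈ range j, c i * (q : ℤ) ^ (j - i) * ((x % q ^ i : ℕ) : ℤ), ?_, ?_, ?_, ?_⟩
  · have h1 : (q : ℤ) ∣ ∑ i ∈ range j, c i * (q : ℤ) ^ (j - i) := by
      apply Finset.dvd_sum
      intro i hi
      have := mem_range.1 hi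
      exact (dvd_pow_self (q : ℤ) (by omega)).mul_left _
    obtain ⟨w, hw⟩ := h1
    rw [hw]
    have := he.add_mul_right_left (-w)
    have e1 : e + -w * (q : ℤ) = e - (q : ℤ) * w := by ring
    rwa [e1] at this
  · have hgeo : ∀ j : ℕ, ∑ i ∈ range j, (q : ℤ) ^ (j - i) ≤ 2 * (q : ℤ) ^ j := by
      intro j
      induction j with
      | zero => simp
      | succ j ih =>
        rw [sum_range_succ']
        have e1 : ∑ i ∈ range j, (q : ℤ) ^ (j + 1 - (i + 1)) = ∑ i ∈ range j, (q : ℤ) ^ (j - i) :=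
          sum_congr rfl fun i _ => by rw [Nat.add_sub_add_right]
        rw [e1, Nat.sub_zero, pow_succ]
        nlinarith [pow_pos hq0 j]
    have h1 : |∑ i ∈ range j, c i * (q : ℤ) ^ (j - i)| ≤ (q : ℤ) ^ (j + 1) * (2 * (q : ℤ) ^ j) := by
      calc |∑ i ∈ range j, c i * (q : ℤ) ^ (j - i)|
          ≤ ∑ i ∈ range j, |c i * (q : ℤ) ^ (j - i)| := abs_sum_le_sum_abs _ _
        _ ≤ ∑ i ∈ range j, (q : ℤ) ^ (j + 1) * (q : ℤ) ^ (j - i) := by
            apply sum_le_sum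
            intro i _
            rw [abs_mul, abs_of_pos (pow_pos hq0 (j - i))]
            exact mul_le_mul_of_nonneg_right (hcb i) (pow_pos hq0 _).le
        _ = (q : ℤ) ^ (j + 1) * ∑ i ∈ range j, (q : ℤ) ^ (j - i) := by rw [mul_sum]
        _ ≤ _ := mul_le_mul_of_nonneg_left (hgeo j) (pow_pos hq0 _).le
    have h2 : (q : ℤ) ^ (j + 1) * (2 * (q : ℤ) ^ j) = 2 * (q : ℤ) ^ (2 * j + 1) := by ring
    have h3 : (q : ℤ) ^ (j + 1) ≤ (q : ℤ) ^ (2 * j + 1) :=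
      pow_le_pow_right₀ (by omega) (by omega)
    calc |e - ∑ i ∈ range j, c i * (q : ℤ) ^ (j - i)|
        ≤ |e| + |∑ i ∈ range j, c i * (q : ℤ) ^ (j - i)| := abs_sub _ _
      _ ≤ _ := by linarith
  · have h1 : |∑ i ∈ range j, c i * (q : ℤ) ^ (j - i) * ((x % q ^ i : ℕ) : ℤ)| ≤
        j * (q : ℤ) ^ (2 * j + 1) := by
      calc |∑ i ∈ range j, c i * (q : ℤ) ^ (j - i) * ((x % q ^ i : ℕ) : ℤ)|
          ≤ ∑ i ∈ range j, |c i * (q : ℤ) ^ (j - i) * ((x % q ^ i : ℕ) : ℤ)| :=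
            abs_sum_le_sum_abs _ _
        _ ≤ ∑ i ∈ range j, (q : ℤ) ^ (2 * j + 1) := by
            apply sum_le_sum
            intro i hi
            have hi' := mem_range.1 hi
            rw [abs_mul, abs_mul, abs_of_pos (pow_pos hq0 (j - i)), abs_of_nonneg (hr0 i)]
            calc |c i| * (q : ℤ) ^ (j - i) * ((x % q ^ i : ℕ) : ℤ)
                ≤ (q : ℤ) ^ (j + 1) * (q : ℤ) ^ (j - i) * (q : ℤ) ^ i := by
                  apply mul_le_mul _ (hr1 i) (hr0 i) (by positivity)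
                  exact mul_le_mul_of_nonneg_right (hcb i) (pow_pos hq0 _).le
              _ = (q : ℤ) ^ (2 * j + 1) := by
                  rw [← pow_add, ← pow_add]
                  congr 1
                  omega
        _ = j * (q : ℤ) ^ (2 * j + 1) := by rw [sum_const, card_range, nsmul_eq_mul]
    have h2 : |m * (q : ℤ) ^ j| ≤ (q : ℤ) ^ (2 * j + 1) := by
      rw [abs_mul, abs_of_pos (pow_pos hq0 j)]
      calc |m| * (q : ℤ) ^ j ≤ (q : ℤ) ^ (j + 1) * (q : ℤ) ^ j :=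
            mul_le_mul_of_nonneg_right hmb (pow_pos hq0 _).le
        _ = _ := by ring
    have h3 : |e * ((x % q ^ j : ℕ) : ℤ)| ≤ (q : ℤ) ^ (2 * j + 1) := by
      rw [abs_mul, abs_of_nonneg (hr0 j)]
      calc |e| * ((x % q ^ j : ℕ) : ℤ) ≤ (q : ℤ) ^ (j + 1) * (q : ℤ) ^ j :=
            mul_le_mul heb (hr1 j) (hr0 j) (by positivity)
        _ = _ := by ring
    calc _ ≤ |m * (q : ℤ) ^ j + e * ((x % q ^ j : ℕ) : ℤ)| +
          |∑ i ∈ range j, c i * (q : ℤ) ^ (j - i) * ((x % q ^ i : ℕ) : ℤ)| := abs_sub _ _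
      _ ≤ |m * (q : ℤ) ^ j| + |e * ((x % q ^ j : ℕ) : ℤ)| +
          |∑ i ∈ range j, c i * (q : ℤ) ^ (j - i) * ((x % q ^ i : ℕ) : ℤ)| := by
            gcongr
            exact abs_add_le _ _
      _ ≤ _ := by linarith
  · have h1 : (q : ℤ) ^ k ∣ (q : ℤ) ^ j * (e * ((x / q ^ j : ℕ) : ℤ) - m -
        ∑ i ∈ range j, c i * ((x / q ^ i : ℕ) : ℤ)) := by
      have : (q : ℤ) ^ k = (q : ℤ) ^ j * (q : ℤ) ^ (k - j) := by
        rw [← pow_add]
        congr 1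
        omega
      rw [this]
      exact mul_dvd_mul_left _ hdvd
    have h2 : (q : ℤ) ^ j * (e * ((x / q ^ j : ℕ) : ℤ) - m -
        ∑ i ∈ range j, c i * ((x / q ^ i : ℕ) : ℤ)) =
        (e - ∑ i ∈ range j, c i * (q : ℤ) ^ (j - i)) * x -
          (m * (q : ℤ) ^ j + e * ((x % q ^ j : ℕ) : ℤ) -
      ∑ i ∈ range j, c i * (q : ℤ) ^ (j - i) * ((x % q ^ i : ℕ) : ℤ)) := by
      have h3 : ∑ i ∈ range j, c i * (q : ℤ) ^ (j - i) * (x : ℤ) =
          ∑ i ∈ range j, ((q : ℤ) ^ j * (c i * ((x / q ^ i : ℕ) : ℤ)) +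
            c i * (q : ℤ) ^ (j - i) * ((x % q ^ i : ℕ) : ℤ)) := by
        apply sum_congr rfl
        intro i hi
        have hi' := mem_range.1 hi
        have h4 : (q : ℤ) ^ j = (q : ℤ) ^ (j - i) * (q : ℤ) ^ i := by
          rw [← pow_add]
          congr 1
          omega
        conv_lhs => rw [hdiv i]
        rw [h4]
        ring
      rw [sub_mul, sum_mul, h3, sum_add_distrib, ← mul_sum]
      have h5 := hdiv j
      have h6 : e * (x : ℤ) = e * ((q : ℤ) ^ j * ((x / q ^ j : ℕ) : ℤ) + ((x % q ^ j : ℕ) : ℤ)) :=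
        congrArg (fun t => e * t) h5
      rw [h6]
      ring
    rw [← h2]
    exact h1

/-- The bound for one instruction, for the numbers `x` with `v x = u a ^ n + w`. -/
theorem step_bound {a q p h g n j k b x : ℕ} {u v w : ℤ} (hp : p.Prime) (hpq : p ∣ q)
    (hpa : ¬ p ∣ a) (ha : 2 ≤ a) (hq : 2 ≤ q) (hah : a < 2 ^ h) (hqg : q < 2 ^ g) (hn : 2 ≤ n)
    (hjk : j ≤ k) (hu0 : u ≠ 0) (hu : |u| < 2 ^ b) (hv : |v| < 2 ^ b)
    (hw : |w| < 2 ^ b) (hx : v * x = u * (a : ℤ) ^ n + w)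
    (hbig : 600 * p * (3 * g * (j + 1) + b + 1) * (Nat.log 2 n + 1) ≤ n)
    (hpred : Predicted q x j k) :
    k < b + 150000 * p ^ 2 * (Nat.log 2 n + 1) ^ 2 * h * (3 * g * (j + 1) + b + 1) := by
  have hh : 1 ≤ h := by
    by_contra hc
    have : h = 0 := by omega
    subst this
    omega
  have hg : 1 ≤ g := by
    by_contra hc
    have : g = 0 := by omega
    subst this
    omega
  have hp2 := hp.two_le
  obtain ⟨D, C, hD, hDb, hCb, hdvd⟩ := hpred.relation hq hjk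
  have hpZ : Prime (p : ℤ) := Nat.prime_iff_prime_int.1 hp
  have hpD : ¬ (p : ℤ) ∣ D := by
    intro h1
    have h2 : (p : ℤ) ∣ (q : ℤ) := by exact_mod_cast hpq
    exact hpZ.not_isUnit (hD.isUnit_of_dvd' h1 h2)
  have hD0 : D ≠ 0 := fun h1 => hpD (h1 ▸ dvd_zero _)
  set A₁ : ℤ := D * u with hA₁
  set C₁ : ℤ := C * v - D * w with hC₁
  have hpk : (p : ℤ) ^ k ∣ A₁ * (a : ℤ) ^ n - C₁ := by
    have h1 : (p : ℤ) ^ k ∣ (q : ℤ) ^ k := pow_dvd_pow_of_dvd (by exact_mod_cast hpq) k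
    have h2 : (p : ℤ) ^ k ∣ v * (D * x - C) := (h1.trans hdvd).mul_left v
    have h3 : v * (D * x - C) = A₁ * (a : ℤ) ^ n - C₁ := by
      calc v * (D * x - C) = D * (v * x) - C * v := by ring
        _ = _ := by rw [hx, hA₁, hC₁]; ring
    rwa [h3] at h2
  have hA₁0 : A₁ ≠ 0 := mul_ne_zero hD0 hu0
  -- the power of `p` in the leading coefficient
  have hfin : FiniteMultiplicity (p : ℤ) u := Int.finiteMultiplicity_iff.2 ⟨by
    rw [Int.natAbs_natCast]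
    omega, hu0⟩
  obtain ⟨u₂, hu₂, hu₂'⟩ := hfin.exists_eq_pow_mul_and_not_dvd
  set s := multiplicity (p : ℤ) u with hs
  have hu₂0 : u₂ ≠ 0 := by
    rintro rfl
    exact hu₂' (dvd_zero _)
  have hsb : s < b := by
    have h1 : (2 : ℤ) ^ s ≤ |u| := by
      rw [hu₂, abs_mul, abs_of_nonneg (by positivity : (0 : ℤ) ≤ (p : ℤ) ^ s)]
      have h2 : (2 : ℤ) ^ s ≤ (p : ℤ) ^ s := pow_le_pow_left₀ (by norm_num) (by exact_mod_cast hp2) s
      have h3 : (1 : ℤ) ≤ |u₂| := Int.one_le_abs hu₂0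
      nlinarith [pow_pos (show (0 : ℤ) < p by omega) s]
    exact (pow_lt_pow_iff_right₀ (by norm_num : (1 : ℤ) < 2)).1 (h1.trans_lt hu)
  rcases Nat.lt_or_ge s k with hsk | hsk
  swap
  · have : 0 ≤ 150000 * p ^ 2 * (Nat.log 2 n + 1) ^ 2 * h * (3 * g * (j + 1) + b + 1) :=
      Nat.zero_le _
    omega
  set A₂ : ℤ := D * u₂ with hA₂
  have hA₁₂ : A₁ = (p : ℤ) ^ s * A₂ := by rw [hA₁, hA₂, hu₂]; ring
  have hpA₂ : ¬ (p : ℤ) ∣ A₂ := by
    intro h1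
    rcases hpZ.dvd_or_dvd h1 with h2 | h2
    · exact hpD h2
    · exact hu₂' h2
  have hsC : (p : ℤ) ^ s ∣ C₁ := by
    have h1 : (p : ℤ) ^ s ∣ A₁ * (a : ℤ) ^ n - C₁ := (pow_dvd_pow _ hsk.le).trans hpk
    have h2 : (p : ℤ) ^ s ∣ A₁ * (a : ℤ) ^ n := by
      rw [hA₁₂, mul_assoc]
      exact dvd_mul_right _ _
    have h3 := dvd_sub h2 h1
    simpa using h3
  obtain ⟨C₂, hC₂⟩ := hsC
  have hp0 : (0 : ℤ) < p := by omega
  have hps : (0 : ℤ) < (p : ℤ) ^ s := pow_pos hp0 s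
  have hpk2 : (p : ℤ) ^ (k - s) ∣ A₂ * (a : ℤ) ^ n - C₂ := by
    have h1 : A₁ * (a : ℤ) ^ n - C₁ = (p : ℤ) ^ s * (A₂ * (a : ℤ) ^ n - C₂) := by
      rw [hA₁₂, hC₂]; ring
    have h2 : (p : ℤ) ^ k = (p : ℤ) ^ s * (p : ℤ) ^ (k - s) := by
      rw [← pow_add]
      congr 1
      omega
    rw [h1, h2] at hpk
    exact (mul_dvd_mul_iff_left hps.ne').1 hpk
  have hpC₂ : ¬ (p : ℤ) ∣ C₂ := by
    intro h1
    have h2 : (p : ℤ) ∣ A₂ * (a : ℤ) ^ n - C₂ := (dvd_pow_self _ (by omega)).trans hpk2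
    have h3 : (p : ℤ) ∣ A₂ * (a : ℤ) ^ n := by
      have := dvd_add h2 h1
      simpa using this
    rcases hpZ.dvd_or_dvd h3 with h4 | h4
    · exact hpA₂ h4
    · exact hpa (by exact_mod_cast hpZ.dvd_of_dvd_pow h4)
  have hA₂0 : A₂ ≠ 0 := fun h1 => hpA₂ (h1 ▸ dvd_zero _)
  have hC₂0 : C₂ ≠ 0 := fun h1 => hpC₂ (h1 ▸ dvd_zero _)
  -- sizes
  have hq0 : (0 : ℤ) < q := by omega
  have hQ : (0 : ℤ) < (q : ℤ) ^ (2 * j + 1) := pow_pos hq0 _
  have hB : (0 : ℤ) < 2 ^ b := by positivity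
  have hpow : (q : ℤ) ^ (2 * j + 1) < 2 ^ (g * (2 * j + 1)) := by
    have h1 : q ^ (2 * j + 1) < (2 ^ g) ^ (2 * j + 1) := Nat.pow_lt_pow_left hqg (by omega)
    rw [← pow_mul] at h1
    exact_mod_cast h1
  have hsz : ((j : ℤ) + 5) * (q : ℤ) ^ (2 * j + 1) * 2 ^ b < 2 ^ (3 * g * (j + 1) + b + 1) := by
    have h1 : ((j : ℤ) + 5) < 2 ^ (j + 3) := by
      have : ∀ j : ℕ, j + 5 < 2 ^ (j + 3) := by
        intro j
        induction j with
        | zero => norm_num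
        | succ j ih =>
          have e1 : 2 ^ (j + 1 + 3) = 2 * 2 ^ (j + 3) := by ring
          omega
      exact_mod_cast this j
    have h2 : ((j : ℤ) + 5) * (q : ℤ) ^ (2 * j + 1) < 2 ^ (j + 3) * 2 ^ (g * (2 * j + 1)) :=
      mul_lt_mul'' h1 hpow (by omega) hQ.le
    have h3 : j + 3 + g * (2 * j + 1) + b ≤ 3 * g * (j + 1) + b + 1 := by
      have : 1 * (j + 2) ≤ g * (j + 2) := Nat.mul_le_mul_right _ hg
      nlinarith
    calc ((j : ℤ) + 5) * (q : ℤ) ^ (2 * j + 1) * 2 ^ b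
        < 2 ^ (j + 3) * 2 ^ (g * (2 * j + 1)) * 2 ^ b := mul_lt_mul_of_pos_right h2 hB
      _ = 2 ^ (j + 3 + g * (2 * j + 1) + b) := by rw [← pow_add, ← pow_add]
      _ ≤ _ := pow_le_pow_right₀ (by norm_num) h3
  have hA₂b : |A₂| < 2 ^ (3 * g * (j + 1) + b + 1) := by
    have h1 : |A₂| ≤ |A₁| := by
      rw [hA₁₂, abs_mul ((p : ℤ) ^ s) A₂, abs_of_pos hps]
      have : (1 : ℤ) ≤ (p : ℤ) ^ s := hps
      nlinarith [abs_nonneg A₂]
    have h2 : |A₁| ≤ 3 * (q : ℤ) ^ (2 * j + 1) * 2 ^ b := by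
      rw [hA₁, abs_mul]
      exact mul_le_mul hDb hu.le (abs_nonneg _) (by positivity)
    have h3 : 3 * (q : ℤ) ^ (2 * j + 1) * 2 ^ b ≤ ((j : ℤ) + 5) * (q : ℤ) ^ (2 * j + 1) * 2 ^ b := by
      gcongr
      omega
    linarith
  have hC₂b : |C₂| < 2 ^ (3 * g * (j + 1) + b + 1) := by
    have h1 : |C₂| ≤ |C₁| := by
      rw [hC₂, abs_mul ((p : ℤ) ^ s) C₂, abs_of_pos hps]
      have : (1 : ℤ) ≤ (p : ℤ) ^ s := hps
      nlinarith [abs_nonneg C₂]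
    have h2 : |C₁| ≤ ((j : ℤ) + 2) * (q : ℤ) ^ (2 * j + 1) * 2 ^ b +
        3 * (q : ℤ) ^ (2 * j + 1) * 2 ^ b := by
      rw [hC₁]
      refine (abs_sub _ _).trans (add_le_add ?_ ?_)
      · rw [abs_mul]
        exact mul_le_mul hCb hv.le (abs_nonneg _) (by positivity)
      · rw [abs_mul]
        exact mul_le_mul hDb hw.le (abs_nonneg _) (by positivity)
    have h3 : ((j : ℤ) + 2) * (q : ℤ) ^ (2 * j + 1) * 2 ^ b +
        3 * (q : ℤ) ^ (2 * j + 1) * 2 ^ b = ((j : ℤ) + 5) * (q : ℤ) ^ (2 * j + 1) * 2 ^ b := by ring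
    linarith
  have hA₂n : A₂.natAbs < 2 ^ (3 * g * (j + 1) + b + 1) := by
    rw [Int.abs_eq_natAbs] at hA₂b
    exact_mod_cast hA₂b
  have hC₂n : C₂.natAbs < 2 ^ (3 * g * (j + 1) + b + 1) := by
    rw [Int.abs_eq_natAbs] at hC₂b
    exact_mod_cast hC₂b
  have hmain := two_logs (p := p) (h := h) (ν := 3 * g * (j + 1) + b + 1) (q := n) (i := 1)
    (y := k - s) (a := a) (b := 1) (A := C₂.natAbs) (B := A₂.natAbs) hp hh (by omega) (by omega)
    one_pos (Int.natAbs_pos.2 hC₂0) (Int.natAbs_pos.2 hA₂0) (by omega) hah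
    (lt_of_lt_of_le (by norm_num) (Nat.pow_le_pow_right (by norm_num) hh) : 1 < 2 ^ h) hC₂n hA₂n
    hpa (by
      intro h1
      exact hp.one_lt.ne' (Nat.dvd_one.1 h1))
    (by
      intro h1
      exact hpC₂ (Int.natCast_dvd.2 h1))
    (by
      intro h1
      exact hpA₂ (Int.natCast_dvd.2 h1)) one_pos (by omega) (Nat.coprime_one_left n) (by
      have e1 : ((C₂.natAbs : ℕ) : ℤ) ^ (2 * 1) = C₂ ^ 2 := by
        rw [mul_one, Int.natAbs_sq]
      have e2 : ((A₂.natAbs : ℕ) : ℤ) ^ (2 * 1) = A₂ ^ 2 := by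
        rw [mul_one, Int.natAbs_sq]
      rw [e1, e2, Nat.cast_one, one_pow, one_mul]
      have e3 : (a : ℤ) ^ (2 * n) * A₂ ^ 2 - C₂ ^ 2 =
          (A₂ * (a : ℤ) ^ n - C₂) * (A₂ * (a : ℤ) ^ n + C₂) := by
        rw [pow_mul']
        ring
      rw [e3]
      exact hpk2.mul_right _) hbig
  omega

end Pool.Agent.H723.PW
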