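import Mathlib
import Pool.Agent.H723.PW.Step

/-! The number of digits written by `z` instructions. -/

set_option autoImplicit false

namespace Pool.Agent.H723.PW

/-- The growth of the number of the digits. -/
theorem Writes.growth {a q p h g n N z b x : ℕ} {u v w : ℤ} (hp : p.Prime) (hpq : p ∣ q)
    (hpa : ¬ p ∣ a) (ha : 2 ≤ a) (hq : 2 ≤ q) (hah : a < 2 ^ h) (hqg : q < 2 ^ g) (hn : 2 ≤ n)
    (hu0 : u ≠ 0) (hu : |u| < 2 ^ b) (hv : |v| < 2 ^ b)
    (hw : |w| < 2 ^ b) (hx : v * x = u * (a : ℤ) ^ n + w) (hW : Writes q x N z) :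
    N + 1 + b ≤ (900000 * p ^ 2 * (Nat.log 2 n + 1) ^ 2 * h * g) ^ z * (1 + b) ∨
      n < 2400 * p * g * (Nat.log 2 n + 1) *
        ((900000 * p ^ 2 * (Nat.log 2 n + 1) ^ 2 * h * g) ^ z * (1 + b)) := by
  have hh : 1 ≤ h := by
    by_contra hc
    have : h = 0 := by omega
    subst this
    omega
  have hg : 1 ≤ g := by
    by_contra hc
    have : g = 0 := by omega
    subst this
    omega
  have hp2 := hp.two_le
  set l := Nat.log 2 n + 1 with hl
  have hl1 : 1 ≤ l := by omega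
  set G := 900000 * p ^ 2 * l ^ 2 * h * g with hG
  have hG1 : 1 ≤ G := by
    have : 0 < G := by positivity
    omega
  set E := 2400 * p * g * l with hE
  induction hW with
  | nil => left; simp
  | @step j k z hW hjk hpred ih =>
    have hGz : G ^ z * (1 + b) ≤ G ^ (z + 1) * (1 + b) :=
      Nat.mul_le_mul_right _ (Nat.pow_le_pow_right hG1 (Nat.le_succ z))
    rcases ih with ih | ih
    · rcases Nat.lt_or_ge n (E * (j + 1 + b)) with h1 | h1
      · right
        calc n < E * (j + 1 + b) := h1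
          _ ≤ E * (G ^ z * (1 + b)) := Nat.mul_le_mul_left _ ih
          _ ≤ _ := Nat.mul_le_mul_left _ hGz
      · left
        have hν : 3 * g * (j + 1) + b + 1 ≤ 4 * g * (j + 1 + b) := by
          have h2 : 1 * (b + 1) ≤ g * (b + 1) := Nat.mul_le_mul_right _ hg
          have h3 : 0 ≤ g * (j + b) := Nat.zero_le _
          nlinarith
        have hbig : 600 * p * (3 * g * (j + 1) + b + 1) * (Nat.log 2 n + 1) ≤ n := by
          calc 600 * p * (3 * g * (j + 1) + b + 1) * (Nat.log 2 n + 1)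
              ≤ 600 * p * (4 * g * (j + 1 + b)) * l :=
                Nat.mul_le_mul_right _ (Nat.mul_le_mul_left _ hν)
            _ = E * (j + 1 + b) := by rw [hE]; ring
            _ ≤ n := h1
        have h4 := step_bound hp hpq hpa ha hq hah hqg hn hjk hu0 hu hv hw hx hbig hpred
        set M := 150000 * p ^ 2 * l ^ 2 * h with hM
        have hM1 : 1 ≤ M := by
          have : 0 < M := by positivity
          omega
        have h5 : M * (3 * g * (j + 1) + b + 1) ≤ M * (4 * g * (j + 1 + b)) :=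
          Nat.mul_le_mul_left _ hν
        have h6 : k + 1 + b ≤ G * (j + 1 + b) := by
          have h7 : G * (j + 1 + b) = M * (4 * g * (j + 1 + b)) + 2 * (M * g * (j + 1 + b)) := by
            rw [hG, hM]
            ring
          have h8 : 1 * (j + 1 + b) ≤ M * g * (j + 1 + b) :=
            Nat.mul_le_mul_right _ (Nat.mul_pos hM1 hg)
          rw [h7]
          omega
        calc k + 1 + b ≤ G * (j + 1 + b) := h6
          _ ≤ G * (G ^ z * (1 + b)) := Nat.mul_le_mul_left _ ih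
          _ = G ^ (z + 1) * (1 + b) := by ring
    · right
      exact ih.trans_le (Nat.mul_le_mul_left _ hGz)

/-- The constant. -/
def cst (a q p : ℕ) : ℝ :=
  16200000 * (p : ℝ) ^ 2 * ((Nat.log 2 a : ℝ) + 1) * ((Nat.log 2 q : ℝ) + 1)

/-- The real form. -/
theorem Writes.bound {a q p : ℕ} (hp : p.Prime) (hpq : p ∣ q) (hpa : ¬ p ∣ a) (ha : 2 ≤ a)
    (hq : 2 ≤ q) : ∀ n : ℕ, 2 ≤ n → ∀ H : ℕ, 1 ≤ H → ∀ (u v w : ℤ) (x : ℕ),
      u ≠ 0 → |u| ≤ H → |v| ≤ H → |w| ≤ H → v * x = u * (a : ℤ) ^ n + w →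
      ∀ N z : ℕ, N ≤ n → Writes q x N z →
        (N : ℝ) ≤ (1 + Real.log H) * (cst a q p * Real.log n) ^ (2 * z + 1) := by
  set h := Nat.log 2 a + 1 with hh
  set g := Nat.log 2 q + 1 with hg
  have hah : a < 2 ^ h := Nat.lt_pow_succ_log_self (by norm_num) a
  have hqg : q < 2 ^ g := Nat.lt_pow_succ_log_self (by norm_num) q
  have hp2 := hp.two_le
  have hh1 : 1 ≤ h := by omega
  have hg1 : 1 ≤ g := by omega
  set C₀ : ℕ := 8100000 * p ^ 2 * h * g with hC₀
  have hC₀1 : 1 ≤ C₀ := by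
    have : 0 < C₀ := by positivity
    omega
  have hC₀R : (1 : ℝ) ≤ C₀ := by exact_mod_cast hC₀1
  have hcst : cst a q p = 2 * C₀ := by
    rw [cst, hC₀, hh, hg]
    push_cast
    ring
  rw [hcst]
  intro n hn H hH u v w x hu0 hu hv hw hx N z hN hW
  set b := Nat.log 2 H + 1 with hb
  have hHb : H < 2 ^ b := Nat.lt_pow_succ_log_self (by norm_num) H
  have hHbZ : (H : ℤ) < 2 ^ b := by exact_mod_cast hHb
  have hgr := hW.growth hp hpq hpa ha hq hah hqg hn hu0 (hu.trans_lt hHbZ) (hv.trans_lt hHbZ)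
    (hw.trans_lt hHbZ) hx
  set l := Nat.log 2 n + 1 with hl
  have hl1 : 1 ≤ l := by omega
  set G := 900000 * p ^ 2 * l ^ 2 * h * g with hG
  have hG1 : 1 ≤ G := by
    have : 0 < G := by positivity
    omega
  set E := 2400 * p * g * l with hE
  have hE1 : 1 ≤ E := by
    have : 0 < E := by positivity
    omega
  have hN2 : N ≤ E * (G ^ z * (1 + b)) := by
    rcases hgr with h1 | h1
    · have h2 : 1 * (G ^ z * (1 + b)) ≤ E * (G ^ z * (1 + b)) := Nat.mul_le_mul_right _ hE1
      omega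
    · omega
  -- logarithms
  have hn0 : (0 : ℝ) < n := by
    have : 0 < n := by omega
    exact_mod_cast this
  have hlog2 : (0.6931471803 : ℝ) < Real.log 2 := Real.log_two_gt_d9
  have hlogn : Real.log 2 ≤ Real.log n := Real.log_le_log (by norm_num) (by exact_mod_cast hn)
  have hLn : ((Nat.log 2 n : ℕ) : ℝ) * Real.log 2 ≤ Real.log n := by
    have h1 : 2 ^ Nat.log 2 n ≤ n := Nat.pow_log_le_self 2 (by omega)
    have h2 : (2 : ℝ) ^ Nat.log 2 n ≤ n := by exact_mod_cast h1
    have h3 := Real.log_le_log (by positivity) h2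
    rwa [Real.log_pow] at h3
  have hlR : (l : ℝ) ≤ 3 * Real.log n := by
    rw [hl]
    push_cast
    have h1 : ((Nat.log 2 n : ℕ) : ℝ) + 1 ≤ 2 * (Real.log n / Real.log 2) := by
      have h2 : ((Nat.log 2 n : ℕ) : ℝ) ≤ Real.log n / Real.log 2 := by
        rw [le_div_iff₀ (by linarith)]
        exact hLn
      have h3 : (1 : ℝ) ≤ Real.log n / Real.log 2 := by
        rw [le_div_iff₀ (by linarith)]
        linarith
      linarith
    have h4 : 2 * (Real.log n / Real.log 2) ≤ 3 * Real.log n := by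
      rw [← mul_div_assoc, div_le_iff₀ (by linarith)]
      nlinarith
    linarith
  have hlH : (1 : ℝ) + b ≤ 2 * (1 + Real.log H) := by
    have h0 : 0 ≤ Real.log H := Real.log_nonneg (by exact_mod_cast hH)
    have h1 : ((Nat.log 2 H : ℕ) : ℝ) * Real.log 2 ≤ Real.log H := by
      have h1 : 2 ^ Nat.log 2 H ≤ H := Nat.pow_log_le_self 2 (by omega)
      have h2 : (2 : ℝ) ^ Nat.log 2 H ≤ H := by exact_mod_cast h1
      have h3 := Real.log_le_log (by positivity) h2
      rwa [Real.log_pow] at h3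
    rw [hb]
    push_cast
    have h2 : ((Nat.log 2 H : ℕ) : ℝ) ≤ 2 * Real.log H := by
      nlinarith [(Nat.cast_nonneg (Nat.log 2 H) : (0 : ℝ) ≤ _)]
    linarith
  have hlog0 : 0 < Real.log n := by linarith
  have hA : (1 : ℝ) ≤ C₀ * Real.log n := by
    have h1 : (2 : ℝ) ≤ C₀ := by
      have : 2 ≤ C₀ := by
        have h2 : 1 ≤ p ^ 2 * h * g := by
          have : 0 < p ^ 2 * h * g := by positivity
          omega
        rw [hC₀]
        nlinarith
      exact_mod_cast this
    nlinarith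
  have hER : (E : ℝ) ≤ C₀ * Real.log n := by
    have h1 : (E : ℝ) = 2400 * p * g * l := by rw [hE]; push_cast; ring
    have h2 : (C₀ : ℝ) = 8100000 * p ^ 2 * h * g := by rw [hC₀]; push_cast; ring
    rw [h1, h2]
    have hpR : (1 : ℝ) ≤ p := by exact_mod_cast (by omega : 1 ≤ p)
    have hhR : (1 : ℝ) ≤ h := by exact_mod_cast hh1
    have hgR : (1 : ℝ) ≤ g := by exact_mod_cast hg1
    calc (2400 : ℝ) * p * g * l ≤ 2400 * p * g * (3 * Real.log n) := by gcongr
      _ = 7200 * (p * g * 1 * 1) * Real.log n := by ring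
      _ ≤ 8100000 * (p * g * p * h) * Real.log n := by
          gcongr
          norm_num
      _ = _ := by ring
  have hGR : (G : ℝ) ≤ (C₀ * Real.log n) ^ 2 := by
    have h1 : (G : ℝ) = 900000 * p ^ 2 * l ^ 2 * h * g := by rw [hG]; push_cast; ring
    have h2 : (C₀ : ℝ) = 8100000 * p ^ 2 * h * g := by rw [hC₀]; push_cast; ring
    calc (G : ℝ) = 900000 * p ^ 2 * l ^ 2 * h * g := h1
      _ ≤ 900000 * p ^ 2 * (3 * Real.log n) ^ 2 * h * g := by gcongr
      _ = C₀ * Real.log n ^ 2 := by rw [h2]; ring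
      _ ≤ C₀ ^ 2 * Real.log n ^ 2 := by
          gcongr
          nlinarith
      _ = _ := by ring
  calc (N : ℝ) ≤ ((E * (G ^ z * (1 + b)) : ℕ) : ℝ) := by exact_mod_cast hN2
    _ = E * ((G : ℝ) ^ z * (1 + b)) := by push_cast; ring
    _ ≤ (C₀ * Real.log n) * (((C₀ * Real.log n) ^ 2) ^ z * (2 * (1 + Real.log H))) := by
        gcongr
    _ = 2 * ((1 + Real.log H) * (C₀ * Real.log n) ^ (2 * z + 1)) := by
        rw [← pow_mul, pow_succ]
        ring
    _ ≤ (1 + Real.log H) * (2 * C₀ * Real.log n) ^ (2 * z + 1) := by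
        have h1 : (2 : ℝ) * C₀ * Real.log n = 2 * (C₀ * Real.log n) := by ring
        have h2 : (2 : ℝ) ≤ 2 ^ (2 * z + 1) := by
          calc (2 : ℝ) = 2 ^ 1 := by norm_num
            _ ≤ _ := pow_le_pow_right₀ (by norm_num) (by omega)
        have h0 : 0 ≤ Real.log H := Real.log_nonneg (by exact_mod_cast hH)
        rw [h1, mul_pow 2 ((C₀ : ℝ) * Real.log n) (2 * z + 1)]
        have h3 : 0 ≤ (1 + Real.log H) * (C₀ * Real.log n) ^ (2 * z + 1) := by positivity
        calc 2 * ((1 + Real.log H) * (C₀ * Real.log n) ^ (2 * z + 1))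
            ≤ 2 ^ (2 * z + 1) * ((1 + Real.log H) * (C₀ * Real.log n) ^ (2 * z + 1)) :=
              mul_le_mul_of_nonneg_right h2 h3
          _ = (1 + Real.log H) * (2 ^ (2 * z + 1) * ((C₀ : ℝ) * Real.log n) ^ (2 * z + 1)) := by ring

end Pool.Agent.H723.PW
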