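import Mathlib
import Pool.Agent.H723.PW.Growth

/-! Digit programs and Lempel-Ziv phrases are predictions. -/

set_option autoImplicit false

namespace Pool.Agent.H723.PW

open Finset Filter

theorem tail_eq (q x i L : ℕ) : ((x / q ^ i : ℕ) : ℤ) =
    ∑ s ∈ range L, (digit q x (i + s) : ℤ) * (q : ℤ) ^ s +
      (q : ℤ) ^ L * ((x / q ^ (i + L) : ℕ) : ℤ) := by
  induction L with
  | zero => simp
  | succ L ih =>
    rw [ih, sum_range_succ]
    have h1 : ((x / q ^ (i + L) : ℕ) : ℤ) =
        (q : ℤ) * ((x / q ^ (i + (L + 1)) : ℕ) : ℤ) + (digit q x (i + L) : ℤ) := by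
      have h2 : x / q ^ (i + (L + 1)) = x / q ^ (i + L) / q := by
        rw [Nat.div_div_eq_div_mul, ← pow_succ]
        rfl
      rw [h2, digit]
      exact_mod_cast (Nat.div_add_mod (x / q ^ (i + L)) q).symm
    rw [h1]
    ring

theorem IsBlock.predicted {q x j k : ℕ} (hq : 2 ≤ q) (h : IsBlock q (digit q x) j k) :
    Predicted q x j k := by
  obtain ⟨e, m, c, he, heb, hmb, hcb, hv⟩ := h
  have hq2 : (2 : ℤ) ≤ q := by exact_mod_cast hq
  have hqj : (0 : ℤ) < (q : ℤ) ^ j := pow_pos (by omega) j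
  have hmulb : ∀ y : ℤ, |y| ≤ (q : ℤ) ^ j → |((q : ℤ) - 1) * y| ≤ (q : ℤ) ^ (j + 1) := by
    intro y hy
    rw [abs_mul, abs_of_nonneg (by omega : (0 : ℤ) ≤ (q : ℤ) - 1), pow_succ]
    nlinarith [abs_nonneg y]
  refine ⟨((q : ℤ) - 1) * e, -m, fun i => ((q : ℤ) - 1) * c i, ?_, hmulb e heb, ?_,
    fun i => hmulb _ (hcb i), ?_⟩
  · apply IsCoprime.mul_left _ he
    exact ⟨-1, 1, by ring⟩
  · rw [abs_neg, pow_succ]
    nlinarith
  · set L := k - j with hL
    set T : ℕ → ℤ := fun i => ((x / q ^ (i + L) : ℕ) : ℤ) with hT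
    set U : ℕ → ℤ := fun i => ∑ s ∈ range L, (digit q x (i + s) : ℤ) * (q : ℤ) ^ s with hU
    have hUT : ∀ i, ((x / q ^ i : ℕ) : ℤ) = U i + (q : ℤ) ^ L * T i := fun i => tail_eq q x i L
    have h1 : e * U j = m * ∑ s ∈ range L, (q : ℤ) ^ s + ∑ i ∈ range j, c i * U i := by
      have h2 : e * U j = ∑ s ∈ range L, (m * (q : ℤ) ^ s +
          ∑ i ∈ range j, c i * ((digit q x (i + s) : ℤ) * (q : ℤ) ^ s)) := by
        rw [hU]
        simp only
        rw [mul_sum]
        apply sum_congr rfl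
        intro s hs
        have hs' := mem_range.1 hs
        have h3 := hv (j + s) (by omega) (by omega)
        rw [← mul_assoc, h3, add_mul, sum_mul]
        congr 1
        apply sum_congr rfl
        intro i _
        have e1 : j + s - j + i = i + s := by omega
        rw [e1]
        ring
      rw [h2, sum_add_distrib, ← mul_sum, sum_comm]
      congr 1
      apply sum_congr rfl
      intro i _
      rw [hU]
      simp only
      rw [mul_sum]
    have h4 : ((q : ℤ) - 1) * ∑ s ∈ range L, (q : ℤ) ^ s = (q : ℤ) ^ L - 1 := mul_geom_sum _ _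
    refine ⟨m + ((q : ℤ) - 1) * e * T j - ∑ i ∈ range j, ((q : ℤ) - 1) * c i * T i, ?_⟩
    have h5 : ∑ i ∈ range j, ((q : ℤ) - 1) * c i * ((x / q ^ i : ℕ) : ℤ) =
        ((q : ℤ) - 1) * ∑ i ∈ range j, c i * U i +
          (q : ℤ) ^ L * ∑ i ∈ range j, ((q : ℤ) - 1) * c i * T i := by
      rw [mul_sum, mul_sum, ← sum_add_distrib]
      apply sum_congr rfl
      intro i _
      rw [hUT i]
      ring
    rw [h5, hUT j]
    have h6 : ((q : ℤ) - 1) * e * (U j + (q : ℤ) ^ L * T j) =
        ((q : ℤ) - 1) * (e * U j) + ((q : ℤ) - 1) * e * (q : ℤ) ^ L * T j := by ring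
    rw [h6, h1]
    have h7 : ((q : ℤ) - 1) * (m * ∑ s ∈ range L, (q : ℤ) ^ s + ∑ i ∈ range j, c i * U i) =
        m * (((q : ℤ) - 1) * ∑ s ∈ range L, (q : ℤ) ^ s) +
          ((q : ℤ) - 1) * ∑ i ∈ range j, c i * U i := by ring
    rw [h7, h4]
    ring

theorem letter_predicted {q : ℕ} (hq : 2 ≤ q) (x N : ℕ) : Predicted q x N (N + 1) := by
  have hq2 : (2 : ℤ) ≤ q := by exact_mod_cast hq
  have hqN : (1 : ℤ) ≤ (q : ℤ) ^ N := one_le_pow₀ (by omega)
  have hqN1 : (q : ℤ) ≤ (q : ℤ) ^ (N + 1) := by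
    rw [pow_succ]
    nlinarith
  refine ⟨1, (digit q x N : ℤ), fun _ => 0, isCoprime_one_left, ?_, ?_, ?_, ?_⟩
  · rw [abs_one]
    omega
  · rw [abs_of_nonneg (by positivity)]
    have : (digit q x N : ℤ) < q := by
      rw [digit]
      exact_mod_cast Nat.mod_lt _ (by omega)
    omega
  · intro i
    rw [abs_zero]
    omega
  · have h1 := tail_eq q x N 1
    simp only [range_one, sum_singleton, add_zero, pow_zero, mul_one, pow_one] at h1
    rw [h1]
    have e1 : N + 1 - N = 1 := by omega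
    rw [e1, pow_one]
    simp

theorem Program.writes {q x N z : ℕ} (hq : 2 ≤ q) (h : Program q (digit q x) N z) :
    Writes q x N z := by
  induction h with
  | nil => exact Writes.nil
  | @letter N z _ ih => exact Writes.step ih (Nat.le_succ N) (letter_predicted hq x N)
  | @block j k z _ hjk hb ih => exact Writes.step ih hjk (hb.predicted hq)

theorem LZ77.program {q : ℕ} (hq : 2 ≤ q) {v : ℕ → ℕ} {N z : ℕ} (h : LZ77 v N z) :
    Program q v N z := by
  have hq2 : (2 : ℤ) ≤ q := by exact_mod_cast hq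
  induction h with
  | nil => exact Program.nil
  | letter _ ih => exact Program.letter ih
  | @copy N M z d _ hNM hd0 hdN hv ih =>
    have hqN : (1 : ℤ) ≤ (q : ℤ) ^ N := one_le_pow₀ (by omega)
    refine Program.block ih hNM ⟨1, 0, fun i => if i = N - d then 1 else 0, isCoprime_one_left,
      ?_, ?_, ?_, ?_⟩
    · rwa [abs_one]
    · rw [abs_zero]
      omega
    · intro i
      beta_reduce
      split_ifs
      · rwa [abs_one]
      · rw [abs_zero]
        omega
    · intro t ht1 ht2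
      rw [one_mul, zero_add, Finset.sum_eq_single (N - d)]
      · have e1 : t - N + (N - d) = t - d := by omega
        beta_reduce
        rw [if_pos rfl, one_mul, e1, hv t ht1 ht2]
      · intro i _ hi
        beta_reduce
        rw [if_neg hi, zero_mul]
      · intro h1
        exact absurd (mem_range.2 (by omega)) h1

/-- the elementary inequality behind the asymptotic form -/
theorem asymptotic {C ε : ℝ} (hC : 1 ≤ C) (hε : 0 < ε) (hε2 : ε < 1 / 2) :
    ∃ n₀ : ℕ, 2 ≤ n₀ ∧ ∀ n : ℕ, n₀ ≤ n → ∀ z : ℕ,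
      (n : ℝ) ≤ (1 + (n : ℝ) ^ ε) * (C * Real.log n) ^ (2 * z + 1) →
      (1 / 2 - ε) * Real.log n / Real.log (Real.log n) ≤ z := by
  have hlog : Tendsto (fun n : ℕ => Real.log n) atTop atTop :=
    Real.tendsto_log_atTop.comp tendsto_natCast_atTop_atTop
  have hloglog : Tendsto (fun n : ℕ => Real.log (Real.log n)) atTop atTop :=
    Real.tendsto_log_atTop.comp hlog
  have hlit : ∀ᶠ y : ℝ in atTop, Real.log y ≤ ε / 4 * y := by
    have h1 := Real.isLittleO_log_id_atTop.bound (by positivity : 0 < ε / 4)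
    filter_upwards [h1, eventually_ge_atTop (1 : ℝ)] with y hy hy1
    rw [Real.norm_eq_abs, Real.norm_eq_abs, id, abs_of_nonneg (Real.log_nonneg hy1),
      abs_of_nonneg (by linarith)] at hy
    exact hy
  have hlit' := hlog.eventually hlit
  have e1 := hlog.eventually_ge_atTop (4 * (Real.log C + Real.log 2) / ε)
  have e2 := hloglog.eventually_ge_atTop (max 1 (2 * Real.log C / ε))
  obtain ⟨n₁, hn₁⟩ := (((hlit'.and e1).and e2)).exists_forall_of_atTop
  refine ⟨max 2 n₁, le_max_left _ _, ?_⟩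
  intro n hn z hz
  obtain ⟨⟨h1, h2⟩, h3⟩ := hn₁ n ((le_max_right _ _).trans hn)
  have hn2 : 2 ≤ n := (le_max_left _ _).trans hn
  have hnR : (0 : ℝ) < n := by exact_mod_cast (by omega : 0 < n)
  have hn1R : (1 : ℝ) ≤ n := by exact_mod_cast (by omega : 1 ≤ n)
  set Y := Real.log n with hY
  set W := Real.log Y with hW
  have hW1 : 1 ≤ W := (le_max_left _ _).trans h3
  have hWC : 2 * Real.log C / ε ≤ W := (le_max_right _ _).trans h3
  have hY0 : 0 < Y := by
    by_contra hc
    have hY1 : 0 ≤ Y := Real.log_nonneg hn1R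
    have : Y = 0 := le_antisymm (not_lt.1 hc) hY1
    rw [hW, this, Real.log_zero] at hW1
    linarith
  have hlogC : 0 ≤ Real.log C := Real.log_nonneg hC
  have hlog2 : 0 ≤ Real.log 2 := Real.log_nonneg (by norm_num)
  by_contra hcon
  rw [not_le, lt_div_iff₀ (by linarith)] at hcon
  -- logarithm of the hypothesis
  have h4 : Y ≤ Real.log 2 + ε * Y + (2 * z + 1) * (Real.log C + W) := by
    have h5 : (n : ℝ) ≤ 2 * (n : ℝ) ^ ε * (C * Y) ^ (2 * z + 1) := by
      refine hz.trans ?_
      apply mul_le_mul_of_nonneg_right _ (by positivity)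
      have : (1 : ℝ) ≤ (n : ℝ) ^ ε := Real.one_le_rpow hn1R hε.le
      linarith
    have h6 := Real.log_le_log hnR h5
    rw [Real.log_mul (by positivity) (by positivity), Real.log_mul (by norm_num) (by positivity),
      Real.log_rpow hnR, Real.log_pow, Real.log_mul (by positivity) hY0.ne'] at h6
    push_cast at h6
    linarith
  have h7 : (2 * (z : ℝ) + 1) * (Real.log C + W) =
      2 * (z * W) + 2 * (z * W) * (Real.log C / W) + Real.log C + W := by
    have : W ≠ 0 := by linarith
    field_simp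
    ring
  have h8 : Real.log C / W ≤ ε / 2 := by
    rw [div_le_iff₀ (by linarith)]
    rw [div_le_iff₀ hε] at hWC
    linarith
  have h9 : 4 * (Real.log C + Real.log 2) ≤ Y * ε := by
    rwa [div_le_iff₀ hε] at h2
  have hzW : 0 ≤ (z : ℝ) * W := by positivity
  have h10 : 2 * (z * W) * (Real.log C / W) ≤ 2 * (z * W) * (ε / 2) :=
    mul_le_mul_of_nonneg_left h8 (by positivity)
  nlinarith

end Pool.Agent.H723.PW
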